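import Mathlib

/-!
# Regular self 2-distance graphs of odd degree

For every odd `k ≥ 5` there is a connected `k`-regular graph which is isomorphic to its 2-distance
graph.  For `k = 5` the graph below is the icosahedron.

The graph `tg r` has `4 r` vertices `(x, ε, s)`.  It is an antipodal double cover of the complete
graph on the `2 r` points `(x, ε)`: the antipode of `(x, ε, s)` is `(x, ε, ¬ s)`.
-/

set_option autoImplicit false

namespace Pool.Agent.Results.MP_325f40_co.OddRegular

/-- The 2-distance graph of `G`: two vertices are adjacent exactly when their distance in `G`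
is 2 (vertices in different connected components have distance infinity). -/
def twoDistanceGraph {V : Type} (G : SimpleGraph V) : SimpleGraph V where
  Adj x y := G.edist x y = 2
  symm := ⟨fun x y h => by rw [SimpleGraph.edist_comm]; exact h⟩
  loopless := ⟨fun x h => by rw [SimpleGraph.edist_self] at h; exact absurd h (by decide)⟩

theorem edist_two {V : Type} (G : SimpleGraph V) (x y : V) :
    G.edist x y = 2 ↔ x ≠ y ∧ ¬ G.Adj x y ∧ ∃ z, G.Adj x z ∧ G.Adj z y := by
  constructor
  · intro h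
    refine ⟨?_, ?_, ?_⟩
    · rintro rfl
      rw [SimpleGraph.edist_self] at h
      exact absurd h (by decide)
    · intro hadj
      rw [← SimpleGraph.edist_eq_one_iff_adj] at hadj
      rw [hadj] at h
      exact absurd h (by decide)
    · have hr : G.Reachable x y := by
        rw [← SimpleGraph.edist_ne_top_iff_reachable, h]
        decide
      obtain ⟨p, hp⟩ := hr.exists_walk_length_eq_edist
      rw [h] at hp
      have hp : p.length = 2 := by exact_mod_cast hp
      cases p with
      | nil => exact absurd hp (by simp)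
      | cons h1 q =>
        cases q with
        | nil => exact absurd hp (by simp)
        | cons h2 r =>
          cases r with
          | nil => exact ⟨_, h1, h2⟩
          | cons h3 s =>
            rw [SimpleGraph.Walk.length_cons, SimpleGraph.Walk.length_cons,
              SimpleGraph.Walk.length_cons] at hp
            omega
  · rintro ⟨hne, hnadj, z, h1, h2⟩
    have hw : G.edist x y ≤ 2 := by
      have := SimpleGraph.edist_le (SimpleGraph.Walk.cons h1 (SimpleGraph.Walk.cons h2
        SimpleGraph.Walk.nil))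
      simpa using this
    have hr : G.Reachable x y := h1.reachable.trans h2.reachable
    obtain ⟨p, hp⟩ := hr.exists_walk_length_eq_edist
    rw [← hp] at hw ⊢
    have hw : p.length ≤ 2 := by exact_mod_cast hw
    have h0 : p.length ≠ 0 := by
      intro h
      exact hne (SimpleGraph.Walk.eq_of_length_eq_zero h)
    have h3 : p.length ≠ 1 := by
      intro h
      rw [h] at hp
      exact hnadj (SimpleGraph.edist_eq_one_iff_adj.1 hp.symm)
    have : p.length = 2 := by omega
    rw [this]
    rfl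

/-- The signature: the value on the pair of points `(x, ε)`, `(y, δ)`. -/
def sg {r : ℕ} (x y : Fin r) (ε δ : Bool) : Bool := if x = y then true else ε && δ

/-- The graph: `(x, ε, s)` and `(y, δ, t)` are adjacent when `(x, ε) ≠ (y, δ)` and `s + t` is the
value of the signature. -/
def tg (r : ℕ) : SimpleGraph (Fin r × Bool × Bool) where
  Adj u v := (u.1 ≠ v.1 ∨ u.2.1 ≠ v.2.1) ∧ (u.2.2 ^^ v.2.2) = sg u.1 v.1 u.2.1 v.2.1
  symm := ⟨by
    rintro ⟨x, ε, s⟩ ⟨y, δ, t⟩ ⟨h1, h2⟩
    refine ⟨?_, ?_⟩
    · rcases h1 with h1 | h1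
      · exact Or.inl (Ne.symm h1)
      · exact Or.inr (Ne.symm h1)
    · simp only [sg] at h2 ⊢
      rw [Bool.xor_comm, h2, Bool.and_comm]
      by_cases h : x = y
      · simp [h]
      · simp [h, Ne.symm h]⟩
  loopless := ⟨by
    rintro ⟨x, ε, s⟩ ⟨h1, -⟩
    rcases h1 with h1 | h1 <;> exact h1 rfl⟩

theorem tg_adj {r : ℕ} {x y : Fin r} {ε δ s t : Bool} :
    (tg r).Adj (x, ε, s) (y, δ, t) ↔ (x ≠ y ∨ ε ≠ δ) ∧ (s ^^ t) = sg x y ε δ := Iff.rfl

theorem exists_third {r : ℕ} (hr : 3 ≤ r) (x y : Fin r) : ∃ z : Fin r, z ≠ x ∧ z ≠ y := by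
  have h : ({x, y} : Finset (Fin r)).card < (Finset.univ : Finset (Fin r)).card := by
    rw [Finset.card_univ, Fintype.card_fin]
    have := Finset.card_le_two (a := x) (b := y)
    omega
  obtain ⟨z, -, hz⟩ := Finset.exists_mem_notMem_of_card_lt_card h
  refine ⟨z, ?_, ?_⟩
  · rintro rfl; simp at hz
  · rintro rfl; simp at hz

/-- Every pair of points lies in a triple of each parity (here: of odd parity). -/
theorem exists_odd {r : ℕ} (hr : 3 ≤ r) (x y : Fin r) (ε δ : Bool) (h : x ≠ y ∨ ε ≠ δ) :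
    ∃ (z : Fin r) (η : Bool), (x ≠ z ∨ ε ≠ η) ∧ (z ≠ y ∨ η ≠ δ) ∧
      (sg x z ε η ^^ sg z y η δ) = !(sg x y ε δ) := by
  obtain ⟨z, hz1, hz2⟩ := exists_third hr x y
  by_cases hxy : x = y
  · subst hxy
    refine ⟨z, false, Or.inl (Ne.symm hz1), Or.inl hz1, ?_⟩
    have hne : ε ≠ δ := by
      rcases h with h | h
      · exact absurd rfl h
      · exact h
    simp only [sg, if_neg hz1, if_neg (Ne.symm hz1), if_true]
    revert hne
    cases ε <;> cases δ <;> decide
  · cases hε : ε <;> cases hδ : δ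
    · exact ⟨x, true, Or.inr (by decide), Or.inl hxy, by simp [sg, hxy]⟩
    · exact ⟨z, true, Or.inl (Ne.symm hz1), Or.inl hz2, by
        simp [sg, hxy, hz2, Ne.symm hz1]⟩
    · exact ⟨z, true, Or.inl (Ne.symm hz1), Or.inl hz2, by
        simp [sg, hxy, hz2, Ne.symm hz1]⟩
    · exact ⟨z, false, Or.inl (Ne.symm hz1), Or.inl hz2, by
        simp [sg, hxy, hz2, Ne.symm hz1]⟩

/-- The 2-distance graph of `tg r`. -/
theorem two_adj {r : ℕ} (hr : 3 ≤ r) (x y : Fin r) (ε δ s t : Bool) :
    (twoDistanceGraph (tg r)).Adj (x, ε, s) (y, δ, t) ↔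
      (x ≠ y ∨ ε ≠ δ) ∧ (s ^^ t) = !(sg x y ε δ) := by
  show (tg r).edist _ _ = 2 ↔ _
  rw [edist_two]
  constructor
  · rintro ⟨h1, h2, ⟨z, η, u⟩, h3, h4⟩
    rw [tg_adj] at h2 h3 h4
    by_cases h : x ≠ y ∨ ε ≠ δ
    · refine ⟨h, ?_⟩
      have h5 : (s ^^ t) ≠ sg x y ε δ := fun h6 => h2 ⟨h, h6⟩
      revert h5
      cases (s ^^ t) <;> cases sg x y ε δ <;> decide
    · exfalso
      push Not at h
      obtain ⟨rfl, rfl⟩ := h
      have h5 : s = t := by
        have h6 := h3.2
        have h7 := h4.2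
        have h8 : sg x z ε η = sg z x η ε := by
          simp only [sg]
          by_cases hz : x = z
          · simp [hz]
          · simp [hz, Ne.symm hz, Bool.and_comm]
        rw [h8, ← h7] at h6
        revert h6
        cases s <;> cases t <;> cases u <;> decide
      exact h1 (by rw [h5])
  · rintro ⟨h1, h2⟩
    refine ⟨?_, ?_, ?_⟩
    · rintro h
      simp only [Prod.mk.injEq] at h
      rcases h1 with h1 | h1
      · exact h1 h.1
      · exact h1 h.2.1
    · rintro ⟨-, h3⟩
      simp only at h3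
      rw [h3] at h2
      revert h2
      cases sg x y ε δ <;> decide
    · obtain ⟨z, η, h3, h4, h5⟩ := exists_odd hr x y ε δ h1
      refine ⟨(z, η, s ^^ sg x z ε η), ⟨h3, ?_⟩, ⟨h4, ?_⟩⟩
      · show (s ^^ (s ^^ sg x z ε η)) = sg x z ε η
        cases s <;> cases sg x z ε η <;> rfl
      · show ((s ^^ sg x z ε η) ^^ t) = sg z y η δ
        rw [← h5] at h2
        revert h2
        cases s <;> cases t <;> cases sg x z ε η <;> cases sg z y η δ <;> decide

/-- The bijection `(x, ε, s) ↦ (x, ¬ ε, s + ε)`. -/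
def phi (r : ℕ) : Fin r × Bool × Bool ≃ Fin r × Bool × Bool where
  toFun u := (u.1, !u.2.1, u.2.2 ^^ u.2.1)
  invFun u := (u.1, !u.2.1, u.2.2 ^^ !u.2.1)
  left_inv := by rintro ⟨x, ε, s⟩; cases ε <;> cases s <;> rfl
  right_inv := by rintro ⟨x, ε, s⟩; cases ε <;> cases s <;> rfl

theorem phi_adj {r : ℕ} (hr : 3 ≤ r) (u v : Fin r × Bool × Bool) :
    (twoDistanceGraph (tg r)).Adj (phi r u) (phi r v) ↔ (tg r).Adj u v := by
  obtain ⟨x, ε, s⟩ := u
  obtain ⟨y, δ, t⟩ := v
  show (twoDistanceGraph (tg r)).Adj (x, !ε, s ^^ ε) (y, !δ, t ^^ δ) ↔ _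
  rw [two_adj hr, tg_adj]
  by_cases hxy : x = y
  · subst hxy
    simp only [sg, if_true, ne_eq, not_true_eq_false, false_or]
    cases ε <;> cases δ <;> cases s <;> cases t <;> decide
  · simp only [sg, ne_eq, hxy, not_false_eq_true, true_or, true_and]
    cases ε <;> cases δ <;> cases s <;> cases t <;> decide

/-- The graph is isomorphic to its 2-distance graph. -/
def iso {r : ℕ} (hr : 3 ≤ r) : tg r ≃g twoDistanceGraph (tg r) where
  toEquiv := phi r
  map_rel_iff' := by
    intro u v
    exact phi_adj hr u v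

/-- The degree is `2 r - 1`. -/
theorem degree {r : ℕ} (u : Fin r × Bool × Bool) :
    ((tg r).neighborSet u).ncard = 2 * r - 1 := by
  obtain ⟨x, ε, s⟩ := u
  have h : (tg r).neighborSet (x, ε, s) =
      (fun p : Fin r × Bool => ((p.1, p.2, s ^^ sg x p.1 ε p.2) : Fin r × Bool × Bool)) ''
        (((Finset.univ : Finset (Fin r × Bool)).erase (x, ε) : Finset (Fin r × Bool)) :
          Set (Fin r × Bool)) := by
    ext ⟨y, δ, t⟩
    rw [SimpleGraph.mem_neighborSet, tg_adj]
    simp only [Set.mem_image, Finset.coe_erase, Finset.coe_univ, Set.mem_sdiff, Set.mem_univ,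
      Set.mem_singleton_iff, true_and, Prod.exists, Prod.mk.injEq]
    constructor
    · rintro ⟨h1, h2⟩
      refine ⟨y, δ, ?_, rfl, rfl, ?_⟩
      · rintro ⟨h3, h4⟩
        rcases h1 with h1 | h1
        · exact h1 h3.symm
        · exact h1 h4.symm
      · rw [← h2]
        cases s <;> cases t <;> rfl
    · rintro ⟨y', δ', h1, h2, h3, h4⟩
      subst h2
      subst h3
      refine ⟨?_, ?_⟩
      · by_contra hcon
        push Not at hcon
        exact h1 ⟨hcon.1.symm, hcon.2.symm⟩
      · rw [← h4]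
        cases s <;> cases sg x y' ε δ' <;> rfl
  rw [h, Set.ncard_image_of_injective]
  · rw [Set.ncard_coe_finset, Finset.card_erase_of_mem (Finset.mem_univ _), Finset.card_univ,
      Fintype.card_prod, Fintype.card_fin, Fintype.card_bool, Nat.mul_comm]
  · rintro ⟨y, δ⟩ ⟨y', δ'⟩ h
    simp only [Prod.mk.injEq] at h
    rw [h.1, h.2.1]

theorem connected {r : ℕ} (hr : 3 ≤ r) : (tg r).Connected := by
  have h2 : ∀ u v, (twoDistanceGraph (tg r)).Adj u v → (tg r).Reachable u v := by
    intro u v h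
    have h3 : (tg r).edist u v = 2 := h
    rw [← SimpleGraph.edist_ne_top_iff_reachable, h3]
    decide
  have hpt : ∀ (x y : Fin r) (ε δ s t : Bool), (x ≠ y ∨ ε ≠ δ) →
      (tg r).Reachable (x, ε, s) (y, δ, t) := by
    intro x y ε δ s t h
    by_cases h3 : (s ^^ t) = sg x y ε δ
    · exact SimpleGraph.Adj.reachable (tg_adj.2 ⟨h, h3⟩)
    · apply h2
      rw [two_adj hr]
      refine ⟨h, ?_⟩
      revert h3
      cases (s ^^ t) <;> cases sg x y ε δ <;> decide
  have : Nonempty (Fin r × Bool × Bool) := ⟨(⟨0, by omega⟩, true, true)⟩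
  rw [SimpleGraph.connected_iff]
  refine ⟨?_, this⟩
  rintro ⟨x, ε, s⟩ ⟨y, δ, t⟩
  by_cases h : x ≠ y ∨ ε ≠ δ
  · exact hpt x y ε δ s t h
  · push Not at h
    obtain ⟨rfl, rfl⟩ := h
    exact (hpt x x ε (!ε) s s (Or.inr (by cases ε <;> decide))).trans
      (hpt x x (!ε) ε s t (Or.inr (by cases ε <;> decide)))

/-- For every odd `k ≥ 5` there is a finite connected `k`-regular graph which is isomorphic to its
2-distance graph. -/
theorem result : ∀ k : ℕ, Odd k → 5 ≤ k →
    ∃ (V : Type) (_ : Fintype V) (Γ : SimpleGraph V), Γ.Connected ∧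
      (∀ v, (Γ.neighborSet v).ncard = k) ∧ Nonempty (Γ ≃g twoDistanceGraph Γ) := by
  intro k hk h5
  obtain ⟨m, rfl⟩ := hk
  refine ⟨Fin (m + 1) × Bool × Bool, inferInstance, tg (m + 1), connected (by omega), ?_,
    ⟨iso (by omega)⟩⟩
  intro v
  rw [degree]
  omega

end Pool.Agent.Results.MP_325f40_co.OddRegular
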